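import Mathlib

/-!
# The chain lemma and monotone flashes and rainbows

`CH R`: in every finite ordered vertex set with an edge colouring whose longest rainbow monotone
path has exactly `R` edges, some used colour is avoided by no three consecutive rainbow paths with
`R` edges each.  If `CH r` holds for `1 ≤ r ≤ R` then every `l`-flash-free set (`l ≥ 3`) without
rainbow path of `R + 1` edges has at most `l ^ R` elements.
-/

set_option autoImplicit false

namespace Pool.MP_54723a_co.CH

/-- There is a rainbow monotone path with `k` edges inside `V`. -/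
def Rb (c : ℕ → ℕ → ℕ) (V : Finset ℕ) (k : ℕ) : Prop :=
  ∃ y : Fin (k + 1) → ℕ, (∀ i, y i ∈ V) ∧ StrictMono y ∧
    Function.Injective (fun i : Fin k => c (y i.castSucc) (y i.succ))

/-- There is a monochromatic monotone path with `l` edges inside `V`. -/
def Flash (c : ℕ → ℕ → ℕ) (V : Finset ℕ) (l : ℕ) : Prop :=
  ∃ x : Fin (l + 1) → ℕ, (∀ i, x i ∈ V) ∧ StrictMono x ∧
    ∃ col : ℕ, ∀ i : Fin l, c (x i.castSucc) (x i.succ) = col

/-- `y 0 < ⋯ < y R` is a rainbow path inside `V` which avoids the colour `g`. -/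
def Pth (c : ℕ → ℕ → ℕ) (V : Finset ℕ) (g R : ℕ) (y : ℕ → ℕ) : Prop :=
  (∀ i ≤ R, y i ∈ V) ∧ (∀ i < R, y i < y (i + 1)) ∧ (∀ i < R, c (y i) (y (i + 1)) ≠ g) ∧
    ∀ i < R, ∀ j < R, c (y i) (y (i + 1)) = c (y j) (y (j + 1)) → i = j

/-- The chain lemma: some used colour is avoided by no three consecutive rainbow paths of maximal
length `R`. -/
def CH (R : ℕ) : Prop :=
  ∀ (c : ℕ → ℕ → ℕ) (V : Finset ℕ), ¬ Rb c V (R + 1) → Rb c V R →
    ∃ g, (∃ u ∈ V, ∃ v ∈ V, u < v ∧ c u v = g) ∧
      ¬ ∃ p q r : ℕ → ℕ, Pth c V g R p ∧ Pth c V g R q ∧ Pth c V g R r ∧ p R = q 0 ∧ q R = r 0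

/-- `V` is a union of `l` sets without rainbow path of `R` edges. -/
def CHI (l R : ℕ) : Prop :=
  ∀ (c : ℕ → ℕ → ℕ) (V : Finset ℕ), ¬ Flash c V l → ¬ Rb c V (R + 1) →
    ∃ A : Fin l → Finset ℕ, (∀ v ∈ V, ∃ i, v ∈ A i) ∧ (∀ i, A i ⊆ V) ∧ ∀ i, ¬ Rb c (A i) R

/-! ### From functions on `ℕ` to functions on `Fin` -/

theorem strictMono_fin {k : ℕ} (y : ℕ → ℕ) (h : ∀ i < k, y i < y (i + 1)) :
    StrictMono (fun i : Fin (k + 1) => y i) := by
  rw [Fin.strictMono_iff_lt_succ]
  intro i
  have := h i i.2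
  simpa using this

theorem rb_of_fun {c : ℕ → ℕ → ℕ} {V : Finset ℕ} {k : ℕ} (y : ℕ → ℕ) (hV : ∀ i ≤ k, y i ∈ V)
    (hlt : ∀ i < k, y i < y (i + 1))
    (hinj : ∀ i < k, ∀ j < k, c (y i) (y (i + 1)) = c (y j) (y (j + 1)) → i = j) : Rb c V k := by
  refine ⟨fun i => y i, fun i => hV i (Nat.lt_succ_iff.mp i.2), strictMono_fin y hlt, ?_⟩
  intro i j hij
  have h := hinj i i.2 j j.2 (by simpa using hij)
  exact Fin.ext h

theorem fun_of_rb {c : ℕ → ℕ → ℕ} {V : Finset ℕ} {k : ℕ} (h : Rb c V k) :
    ∃ y : ℕ → ℕ, (∀ i ≤ k, y i ∈ V) ∧ (∀ i < k, y i < y (i + 1)) ∧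
      ∀ i < k, ∀ j < k, c (y i) (y (i + 1)) = c (y j) (y (j + 1)) → i = j := by
  obtain ⟨y, hV, hm, hinj⟩ := h
  refine ⟨fun i => if h : i < k + 1 then y ⟨i, h⟩ else 0, ?_, ?_, ?_⟩
  · intro i hi
    have : i < k + 1 := by omega
    simp only [this, dif_pos]
    exact hV _
  · intro i hi
    have h1 : i < k + 1 := by omega
    have h2 : i + 1 < k + 1 := by omega
    simp only [h1, h2, dif_pos]
    exact hm (by simp [Fin.lt_def])
  · intro i hi j hj
    have h1 : i < k + 1 := by omega
    have h2 : i + 1 < k + 1 := by omega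
    have h3 : j < k + 1 := by omega
    have h4 : j + 1 < k + 1 := by omega
    simp only [h1, h2, h3, h4, dif_pos]
    intro he
    have := @hinj ⟨i, hi⟩ ⟨j, hj⟩ (by simpa [Fin.castSucc, Fin.succ] using he)
    exact congrArg Fin.val this

theorem Rb.mono {c : ℕ → ℕ → ℕ} {V W : Finset ℕ} {k : ℕ} (hVW : V ⊆ W) (h : Rb c V k) :
    Rb c W k := by
  obtain ⟨y, hV, h1, h2⟩ := h
  exact ⟨y, fun i => hVW (hV i), h1, h2⟩

theorem Flash.mono {c : ℕ → ℕ → ℕ} {V W : Finset ℕ} {k : ℕ} (hVW : V ⊆ W) (h : Flash c V k) :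
    Flash c W k := by
  obtain ⟨y, hV, h1, h2⟩ := h
  exact ⟨y, fun i => hVW (hV i), h1, h2⟩

/-- The vertex `v` is the end of a path of colour `g` with `i` edges. -/
def Dep (c : ℕ → ℕ → ℕ) (V : Finset ℕ) (g : ℕ) : ℕ → ℕ → Prop
  | 0, _ => True
  | i + 1, v => ∃ u ∈ V, u < v ∧ c u v = g ∧ Dep c V g i u

theorem Dep.path {c : ℕ → ℕ → ℕ} {V : Finset ℕ} {g : ℕ} : ∀ {i v : ℕ}, v ∈ V → Dep c V g i v →
    ∃ x : ℕ → ℕ, x i = v ∧ (∀ j ≤ i, x j ∈ V) ∧
      ∀ j < i, x j < x (j + 1) ∧ c (x j) (x (j + 1)) = g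
  | 0, v, hv, _ => ⟨fun _ => v, rfl, fun _ _ => hv, fun j hj => absurd hj (Nat.not_lt_zero j)⟩
  | i + 1, v, hv, h => by
      obtain ⟨u, hu, huv, hg, hd⟩ := h
      obtain ⟨x, hx, hxV, hxs⟩ := Dep.path hu hd
      refine ⟨fun j => if j ≤ i then x j else v, ?_, ?_, ?_⟩
      · simp
      · intro j hj
        by_cases hji : j ≤ i
        · simp only [hji, if_true]; exact hxV j hji
        · simp only [hji, if_false]; exact hv
      · intro j hj
        by_cases hji : j + 1 ≤ i
        · have h1 : j ≤ i := by omega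
          simp only [h1, hji, if_true]
          exact hxs j (by omega)
        · have h1 : j = i := by omega
          subst h1
          simp only [le_refl, if_true, hji, if_false]
          rw [hx]
          exact ⟨huv, hg⟩

theorem Dep.flash {c : ℕ → ℕ → ℕ} {V : Finset ℕ} {g i v : ℕ} (hv : v ∈ V) (h : Dep c V g i v) :
    Flash c V i := by
  obtain ⟨x, _, hxV, hxs⟩ := h.path hv
  refine ⟨fun j => x j, fun j => hxV j (Nat.lt_succ_iff.mp j.2),
    strictMono_fin x (fun j hj => (hxs j hj).1), g, ?_⟩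
  intro j
  simpa using (hxs j j.2).2

/-- Append an edge. -/
theorem append_rb {c : ℕ → ℕ → ℕ} {V : Finset ℕ} {g R : ℕ} {y : ℕ → ℕ} (h : Pth c V g R y)
    {w : ℕ} (hw : w ∈ V) (hlt : y R < w) (hc : c (y R) w = g) : Rb c V (R + 1) := by
  obtain ⟨h1, h2, h3, h4⟩ := h
  obtain ⟨y', e1, e2⟩ : ∃ y' : ℕ → ℕ, (∀ i ≤ R, y' i = y i) ∧ y' (R + 1) = w :=
    ⟨fun i => if i ≤ R then y i else w, fun i hi => by simp [hi], by simp⟩
  apply rb_of_fun y'
  · intro i hi
    rcases Nat.lt_or_ge R i with h | h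
    · have : i = R + 1 := by omega
      subst this
      rw [e2]; exact hw
    · rw [e1 i h]; exact h1 i h
  · intro i hi
    rcases Nat.lt_or_ge i R with h | h
    · rw [e1 i (by omega), e1 (i + 1) (by omega)]; exact h2 i h
    · have : i = R := by omega
      subst this
      rw [e1 i le_rfl, e2]; exact hlt
  · intro i hi j hj hij
    rcases Nat.lt_or_ge i R with h | h <;> rcases Nat.lt_or_ge j R with h' | h'
    · rw [e1 i (by omega), e1 (i + 1) (by omega), e1 j (by omega), e1 (j + 1) (by omega)] at hij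
      exact h4 i h j h' hij
    · have : j = R := by omega
      subst this
      rw [e1 i (by omega), e1 (i + 1) (by omega), e1 j le_rfl, e2, hc] at hij
      exact absurd hij (h3 i h)
    · have : i = R := by omega
      subst this
      rw [e1 j (by omega), e1 (j + 1) (by omega), e1 i le_rfl, e2, hc] at hij
      exact absurd hij.symm (h3 j h')
    · omega

/-- Prepend an edge. -/
theorem prepend_rb {c : ℕ → ℕ → ℕ} {V : Finset ℕ} {g R : ℕ} {y : ℕ → ℕ} (h : Pth c V g R y)
    {w : ℕ} (hw : w ∈ V) (hlt : w < y 0) (hc : c w (y 0) = g) : Rb c V (R + 1) := by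
  obtain ⟨h1, h2, h3, h4⟩ := h
  obtain ⟨y', e1, e2⟩ : ∃ y' : ℕ → ℕ, (∀ i, y' (i + 1) = y i) ∧ y' 0 = w :=
    ⟨fun i => if i = 0 then w else y (i - 1), fun i => by simp, by simp⟩
  apply rb_of_fun y'
  · intro i hi
    rcases i with _ | i
    · rw [e2]; exact hw
    · rw [e1]; exact h1 i (by omega)
  · intro i hi
    rcases i with _ | i
    · rw [e2, e1]; exact hlt
    · rw [e1, e1]; exact h2 i (by omega)
  · intro i hi j hj hij
    rcases i with _ | i <;> rcases j with _ | j
    · rfl
    · rw [e2, e1, e1, e1, hc] at hij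
      exact absurd hij.symm (h3 j (by omega))
    · rw [e2, e1, e1, e1, hc] at hij
      exact absurd hij (h3 i (by omega))
    · rw [e1, e1, e1, e1] at hij
      rw [h4 i (by omega) j (by omega) hij]

/-- The chain lemma gives the partition into `l` sets. -/
theorem chi_of_ch {l R : ℕ} (hl : 3 ≤ l) (hR : 1 ≤ R) (hCH : CH R) : CHI l R := by
  classical
  intro c V hfl hrb
  by_cases hrank : Rb c V R
  swap
  · refine ⟨fun _ => V, fun v hv => ⟨⟨0, by omega⟩, hv⟩, fun _ => subset_rfl, fun _ => hrank⟩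
  obtain ⟨g, -, hg⟩ := hCH c V hrb hrank
  -- incidence with `g`
  let Ou : ℕ → Prop := fun v => ∃ w ∈ V, v < w ∧ c v w = g
  let D : ℕ → ℕ → Prop := Dep c V g
  let Em : ℕ → Prop := fun t => ∃ p, Pth c V g R p ∧ p R = t
  let Ep : ℕ → Prop := fun t => ∃ p, Pth c V g R p ∧ p 0 = t
  have hDl : ∀ v ∈ V, ¬ D l v := fun v hv h => hfl (Dep.flash hv h)
  have hstep : ∀ i u v, u ∈ V → u < v → c u v = g → D i u → D (i + 1) v :=
    fun i u v hu huv hc hd => ⟨u, hu, huv, hc, hd⟩
  -- classes
  let P : ℕ → ℕ → Prop := fun i v =>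
    if i = 0 then ¬ D 1 v ∧ (Ou v ∨ ¬ Em v)
    else if i = l - 1 then ¬ Ou v ∧ (D 1 v ∨ ¬ Ep v)
    else (D i v ∧ ¬ D (i + 1) v ∧ Ou v) ∨ (i = 1 ∧ ¬ D 1 v ∧ ¬ Ou v ∧ Em v ∧ Ep v)
  refine ⟨fun i => V.filter (P i), ?_, fun i => Finset.filter_subset _ _, ?_⟩
  · intro v hv
    -- find the class
    have hex : ∃ i < l, P i v := by
      by_cases hD1 : D 1 v
      · by_cases hO : Ou v
        · -- level
          have h0 : ∃ j, ¬ D j v := ⟨l, hDl v hv⟩
          obtain ⟨j, hj, hjm⟩ : ∃ j, ¬ D j v ∧ ∀ i < j, D i v :=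
            ⟨Nat.find h0, Nat.find_spec h0, fun i hi => not_not.mp (Nat.find_min h0 hi)⟩
          have hj2 : 2 ≤ j := by
            rcases Nat.lt_or_ge j 2 with h | h
            · interval_cases j
              · exact absurd trivial hj
              · exact absurd hD1 hj
            · exact h
          have hjl : j < l := by
            rcases Nat.lt_or_ge j l with h | h
            · exact h
            · -- `D (l-1) v` and `Ou v` give an `l`-flash
              obtain ⟨w, hw, hvw, hc⟩ := hO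
              have : D (l - 1 + 1) w := hstep (l - 1) v w hv hvw hc (hjm (l - 1) (by omega))
              rw [Nat.sub_add_cancel (by omega)] at this
              exact absurd this (hDl w hw)
          refine ⟨j - 1, by omega, ?_⟩
          have h1 : j - 1 ≠ 0 := by omega
          have h2 : j - 1 ≠ l - 1 := by omega
          simp only [P, h1, h2, if_false]
          left
          refine ⟨hjm _ (by omega), ?_, hO⟩
          rw [Nat.sub_add_cancel (by omega)]
          exact hj
        · refine ⟨l - 1, by omega, ?_⟩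
          have h1 : l - 1 ≠ 0 := by omega
          simp only [P, h1, if_false, if_true]
          exact ⟨hO, Or.inl hD1⟩
      · by_cases hO : Ou v
        · exact ⟨0, by omega, by simp only [P, if_true]; exact ⟨hD1, Or.inl hO⟩⟩
        · by_cases hEm : Em v
          · by_cases hEp : Ep v
            · refine ⟨1, by omega, ?_⟩
              have h2 : (1 : ℕ) ≠ l - 1 := by omega
              show P 1 v
              simp only [P, one_ne_zero, h2, if_false]
              right
              exact ⟨trivial, hD1, hO, hEm, hEp⟩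
            · refine ⟨l - 1, by omega, ?_⟩
              have h1 : l - 1 ≠ 0 := by omega
              simp only [P, h1, if_false, if_true]
              exact ⟨hO, Or.inr hEp⟩
          · exact ⟨0, by omega, by simp only [P, if_true]; exact ⟨hD1, Or.inr hEm⟩⟩
    obtain ⟨i, hi, hP⟩ := hex
    exact ⟨⟨i, hi⟩, Finset.mem_filter.mpr ⟨hv, hP⟩⟩
  · intro i hr
    obtain ⟨y, hyV, hylt, hyinj⟩ := fun_of_rb hr
    have hyV' : ∀ j ≤ R, y j ∈ V ∧ P i (y j) := fun j hj => Finset.mem_filter.mp (hyV j hj)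
    -- every class is `g`-free
    have hfree : ∀ j < R, c (y j) (y (j + 1)) ≠ g := by
      intro j hj hcg
      have ha := hyV' j (by omega)
      have hb := hyV' (j + 1) (by omega)
      have hOa : Ou (y j) := ⟨y (j + 1), hb.1, hylt j hj, hcg⟩
      have hDb : D 1 (y (j + 1)) := hstep 0 _ _ ha.1 (hylt j hj) hcg trivial
      have hPa := ha.2
      have hPb := hb.2
      by_cases h0 : (i : ℕ) = 0
      · simp only [P, h0, if_true] at hPb
        exact hPb.1 hDb
      · by_cases h1 : (i : ℕ) = l - 1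
        · have h1' : l - 1 ≠ 0 := by omega
          simp only [P, h1, h1', if_false, if_true] at hPa
          exact hPa.1 hOa
        · simp only [P, h0, h1, if_false] at hPa hPb
          rcases hPa with hPa | hPa
          · rcases hPb with hPb | hPb
            · exact hPb.2.1 (hstep _ _ _ ha.1 (hylt j hj) hcg hPa.1)
            · exact hPb.2.1 hDb
          · exact hPa.2.2.1 hOa
    have hpth : Pth c V g R y := ⟨fun j hj => (hyV' j hj).1, hylt, hfree, hyinj⟩
    have hnoOut : ¬ Ou (y R) := by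
      rintro ⟨w, hw, hlt, hc⟩
      exact hrb (append_rb hpth hw hlt hc)
    have hnoIn : ¬ D 1 (y 0) := by
      rintro ⟨w, hw, hlt, hc, -⟩
      exact hrb (prepend_rb hpth hw hlt hc)
    have hs := (hyV' 0 (by omega)).2
    have he := (hyV' R le_rfl).2
    by_cases h0 : (i : ℕ) = 0
    · simp only [P, h0, if_true] at he
      rcases he.2 with h | h
      · exact hnoOut h
      · exact h ⟨y, hpth, rfl⟩
    · by_cases h1 : (i : ℕ) = l - 1
      · have h1' : l - 1 ≠ 0 := by omega
        simp only [P, h1, h1', if_false, if_true] at hs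
        rcases hs.2 with h | h
        · exact hnoIn h
        · exact h ⟨y, hpth, rfl⟩
      · simp only [P, h0, h1, if_false] at hs he
        rcases he with he | he
        · exact hnoOut he.2.2
        · rcases hs with hs | hs
          · -- `D i (y 0)` with `i = 1`
            have hi1 : (i : ℕ) = 1 := he.1
            rw [hi1] at hs
            exact hnoIn hs.1
          · obtain ⟨p, hp, hpe⟩ := hs.2.2.2.1
            obtain ⟨r, hr', hre⟩ := he.2.2.2.2
            exact hg ⟨p, y, r, hp, hpth, hr', hpe, hre.symm⟩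

/-- The counting step. -/
theorem card_le_of_chi {l R : ℕ} (h : ∀ r, 1 ≤ r → r ≤ R → CHI l r) (c : ℕ → ℕ → ℕ)
    (V : Finset ℕ) (hfl : ¬ Flash c V l) (hrb : ¬ Rb c V (R + 1)) : V.card ≤ l ^ R := by
  classical
  induction R generalizing V with
  | zero =>
      by_contra hcard
      have hcard' : 1 < V.card := by simpa using hcard
      obtain ⟨a, ha, b, hb, hab⟩ := Finset.one_lt_card.mp hcard'
      rcases Nat.lt_or_gt_of_ne hab with hlt | hlt
      · apply hrb
        apply rb_of_fun (fun i => if i = 0 then a else b)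
        · intro i _
          by_cases hi : i = 0
          · simp only [hi, if_true]; exact ha
          · simp only [hi, if_false]; exact hb
        · intro i hi
          have : i = 0 := by omega
          subst this
          simpa using hlt
        · intro i hi j hj _
          omega
      · apply hrb
        apply rb_of_fun (fun i => if i = 0 then b else a)
        · intro i _
          by_cases hi : i = 0
          · simp only [hi, if_true]; exact hb
          · simp only [hi, if_false]; exact ha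
        · intro i hi
          have : i = 0 := by omega
          subst this
          simpa using hlt
        · intro i hi j hj _
          omega
  | succ R ih =>
      obtain ⟨A, hcov, hsub, hA⟩ := h (R + 1) (by omega) le_rfl c V hfl hrb
      have hAi : ∀ i, (A i).card ≤ l ^ R := fun i =>
        ih (fun r h1 h2 => h r h1 (by omega)) (A i) (fun hf => hfl (hf.mono (hsub i))) (hA i)
      calc V.card ≤ (Finset.univ.biUnion A).card := by
            apply Finset.card_le_card
            intro v hv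
            obtain ⟨i, hi⟩ := hcov v hv
            exact Finset.mem_biUnion.mpr ⟨i, Finset.mem_univ i, hi⟩
        _ ≤ ∑ i, (A i).card := Finset.card_biUnion_le
        _ ≤ ∑ _i : Fin l, l ^ R := Finset.sum_le_sum fun i _ => hAi i
        _ = l ^ (R + 1) := by simp [pow_succ, mul_comm]

/-- The chain lemma for `1 ≤ r ≤ k - 1` gives the exact bound for `k`-rainbows. -/
theorem fin_of_chi {l k : ℕ} (hk : 1 ≤ k) (h : ∀ r, 1 ≤ r → r + 1 ≤ k → CHI l r)
    (N : ℕ) (hN : l ^ (k - 1) < N) (c : Fin N → Fin N → ℕ) :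
    (∃ x : Fin (l + 1) → Fin N, StrictMono x ∧
      ∃ col : ℕ, ∀ i : Fin l, c (x i.castSucc) (x i.succ) = col) ∨
    (∃ y : Fin (k + 1) → Fin N, StrictMono y ∧
      Function.Injective (fun i : Fin k => c (y i.castSucc) (y i.succ))) := by
  classical
  by_contra hcon
  rw [not_or] at hcon
  obtain ⟨hnf, hnr⟩ := hcon
  let c' : ℕ → ℕ → ℕ := fun u v => if h : u < N ∧ v < N then c ⟨u, h.1⟩ ⟨v, h.2⟩ else 0
  have hc' : ∀ (u v : Fin N), c' u v = c u v := fun u v => by
    simp only [c', u.2, v.2, and_self, dif_pos]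
  have key : (Finset.range N).card ≤ l ^ (k - 1) := by
    apply card_le_of_chi (R := k - 1) (fun r h1 h2 => h r h1 (by omega)) c'
    · rintro ⟨x, hx, hm, col, hcol⟩
      apply hnf
      refine ⟨fun i => ⟨x i, Finset.mem_range.mp (hx i)⟩, fun i j hij => hm hij, col, ?_⟩
      intro i
      have := hcol i
      have h2 := hc' ⟨x i.castSucc, Finset.mem_range.mp (hx _)⟩ ⟨x i.succ, Finset.mem_range.mp (hx _)⟩
      exact h2.symm.trans this
    · rw [Nat.sub_add_cancel hk]
      rintro ⟨y, hy, hm, hinj⟩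
      apply hnr
      refine ⟨fun i => ⟨y i, Finset.mem_range.mp (hy i)⟩, fun i j hij => hm hij, ?_⟩
      intro i j hij
      have h2 := hc' ⟨y i.castSucc, Finset.mem_range.mp (hy _)⟩ ⟨y i.succ, Finset.mem_range.mp (hy _)⟩
      have h3 := hc' ⟨y j.castSucc, Finset.mem_range.mp (hy _)⟩ ⟨y j.succ, Finset.mem_range.mp (hy _)⟩
      exact hinj (h2.trans (hij.trans h3.symm))
  rw [Finset.card_range] at key
  omega

/-- The chain lemma for `1 ≤ r ≤ k - 1` gives the exact bound for `k`-rainbows, for all `l ≥ 3`. -/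
theorem fin_of_ch {l k : ℕ} (hl : 3 ≤ l) (hk : 1 ≤ k) (h : ∀ r, 1 ≤ r → r + 1 ≤ k → CH r)
    (N : ℕ) (hN : l ^ (k - 1) < N) (c : Fin N → Fin N → ℕ) :
    (∃ x : Fin (l + 1) → Fin N, StrictMono x ∧
      ∃ col : ℕ, ∀ i : Fin l, c (x i.castSucc) (x i.succ) = col) ∨
    (∃ y : Fin (k + 1) → Fin N, StrictMono y ∧
      Function.Injective (fun i : Fin k => c (y i.castSucc) (y i.succ))) :=
  fin_of_chi hk (fun r h1 h2 => chi_of_ch hl h1 (h r h1 h2)) N hN c

end Pool.MP_54723a_co.CH
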